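import Pool.Agent.ZES.StmtsK

/-!
ZES, row PQI.
-/

namespace Pool.Agent.ZES.H92

open scoped BigOperators
open Pool.Agent.ZES Pool.Agent.THS

/-- the real coordinates -/
noncomputable def Tr {g : ℕ} (τ : Matrix (Fin g) (Fin g) ℂ) :
    ((Fin g → ℝ) × (Fin g → ℝ)) →ₗ[ℝ] (Fin g → ℂ) where
  toFun x i := (x.1 i : ℂ) + ∑ j, τ i j * (x.2 j : ℂ)
  map_add' x y := by
    funext i
    simp only [Prod.fst_add, Prod.snd_add, Pi.add_apply, Complex.ofReal_add, mul_add,
      Finset.sum_add_distrib]
    ring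
  map_smul' c x := by
    funext i
    simp only [Prod.smul_fst, Prod.smul_snd, Pi.smul_apply, smul_eq_mul, Complex.ofReal_mul,
      RingHom.id_apply, Complex.real_smul, mul_add, Finset.mul_sum]
    congr 1
    refine Finset.sum_congr rfl fun j _ => ?_
    ring

theorem Tr_apply {g : ℕ} (τ : Matrix (Fin g) (Fin g) ℂ) (x : (Fin g → ℝ) × (Fin g → ℝ))
    (i : Fin g) : Tr τ x i = (x.1 i : ℂ) + ∑ j, τ i j * (x.2 j : ℂ) := rfl

theorem Tr_ker {g : ℕ} {τ : Matrix (Fin g) (Fin g) ℂ} (hτ : Siegel τ) :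
    LinearMap.ker (Tr τ) = ⊥ := by
  rw [LinearMap.ker_eq_bot']
  rintro ⟨p, q⟩ h
  have h1 : ∀ i, (p i : ℂ) + ∑ j, τ i j * (q j : ℂ) = 0 := by
    intro i
    exact congrFun h i
  have h2 : (τ.map Complex.im).mulVec q = 0 := by
    funext i
    have h3 := congrArg Complex.im (h1 i)
    rw [Complex.add_im, Complex.ofReal_im, zero_add, Complex.im_sum, Complex.zero_im] at h3
    rw [Matrix.mulVec, dotProduct, Pi.zero_apply, ← h3]
    refine Finset.sum_congr rfl fun j _ => ?_
    rw [Complex.im_mul_ofReal, Matrix.map_apply]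
  have h4 : q = 0 := by
    have hu : IsUnit (τ.map Complex.im) := hτ.2.isUnit
    exact Matrix.mulVec_injective_of_isUnit hu (by rw [h2, Matrix.mulVec_zero])
  subst h4
  have h5 : p = 0 := by
    funext i
    have h6 := h1 i
    simp only [Pi.zero_apply, Complex.ofReal_zero, mul_zero, Finset.sum_const_zero,
      add_zero] at h6
    exact_mod_cast h6
  rw [h5]
  rfl

theorem pr_eq {g : ℕ} (τ : Matrix (Fin g) (Fin g) ℂ) (p q : Fin g → ℤ) :
    pr τ p q = Tr τ (fun i => (p i : ℝ), fun i => (q i : ℝ)) := by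
  funext i
  rw [Tr_apply]
  simp [pr]

theorem pqi : PqiStmt := by
  intro g τ hτ
  have hker := Tr_ker hτ
  refine ⟨?_, ?_, ?_⟩
  · intro p q p' q' h
    rw [pr_eq, pr_eq] at h
    have h1 := LinearMap.ker_eq_bot.1 hker h
    rw [Prod.mk.injEq] at h1
    refine ⟨funext fun i => ?_, funext fun i => ?_⟩
    · exact_mod_cast congrFun h1.1 i
    · exact_mod_cast congrFun h1.2 i
  · obtain ⟨K, hK, hanti⟩ := LinearMap.exists_antilipschitzWith (Tr τ) hker
    have hK' : (0 : ℝ) < K := by exact_mod_cast hK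
    refine ⟨1 / K, by positivity, ?_⟩
    rintro w ⟨p, q, hw⟩ hn
    obtain ⟨z, hz⟩ : ∃ z : (Fin g → ℝ) × (Fin g → ℝ),
        z = (fun i => (p i : ℝ), fun i => (q i : ℝ)) := ⟨_, rfl⟩
    have e : w = Tr τ z := by
      rw [hz, ← pr_eq]
      funext i
      exact hw i
    have h1 := hanti.le_mul_dist z 0
    rw [map_zero, dist_zero_right, dist_zero_right, ← e] at h1
    have h2 : (K : ℝ) * ‖w‖ < 1 := by
      rw [lt_div_iff₀ hK'] at hn
      linarith
    have h3 := lt_of_le_of_lt h1 h2
    have hz1 : ∀ i, z.1 i = (p i : ℝ) := by intro i; rw [hz]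
    have hz2 : ∀ i, z.2 i = (q i : ℝ) := by intro i; rw [hz]
    have hp : ∀ i, p i = 0 := by
      intro i
      have h4 : ‖z.1 i‖ ≤ ‖z‖ := le_trans (norm_le_pi_norm z.1 i) (norm_fst_le z)
      have h5 := lt_of_le_of_lt h4 h3
      rw [hz1, Real.norm_eq_abs] at h5
      have h6 : |p i| < 1 := by exact_mod_cast h5
      exact Int.abs_lt_one_iff.1 h6
    have hq : ∀ i, q i = 0 := by
      intro i
      have h4 : ‖z.2 i‖ ≤ ‖z‖ := le_trans (norm_le_pi_norm z.2 i) (norm_snd_le z)
      have h5 := lt_of_le_of_lt h4 h3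
      rw [hz2, Real.norm_eq_abs] at h5
      have h6 : |q i| < 1 := by exact_mod_cast h5
      exact Int.abs_lt_one_iff.1 h6
    funext i
    rw [hw i]
    simp [hp, hq]
  · rw [eq_top_iff]
    intro w _
    have hfr : Module.finrank ℝ ((Fin g → ℝ) × (Fin g → ℝ)) =
        Module.finrank ℝ (Fin g → ℂ) := by
      rw [Module.finrank_prod, Module.finrank_pi, Module.finrank_pi_fintype]
      simp only [Fintype.card_fin, Complex.finrank_real_complex, Finset.sum_const,
        Finset.card_univ, smul_eq_mul]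
      ring
    have hsurj := (LinearMap.injective_iff_surjective_of_finrank_eq_finrank hfr).1
      (LinearMap.ker_eq_bot.1 hker)
    obtain ⟨⟨p, q⟩, rfl⟩ := hsurj w
    have e : Tr τ (p, q) = (∑ i, p i • pr τ (Pi.single i 1) 0) +
        ∑ j, q j • pr τ 0 (Pi.single j 1) := by
      funext k
      rw [Tr_apply, Pi.add_apply, Finset.sum_apply, Finset.sum_apply]
      congr 1
      · rw [Finset.sum_eq_single k]
        · simp [pr]
        · intro i _ hik
          simp [pr, Ne.symm hik]
        · intro h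
          exact absurd (Finset.mem_univ k) h
      · refine Finset.sum_congr rfl fun j _ => ?_
        rw [Pi.smul_apply, Complex.real_smul]
        have e1 : pr τ 0 (Pi.single j 1) k = τ k j := by
          unfold pr
          rw [Finset.sum_eq_single j]
          · simp
          · intro i _ hij
            simp [hij]
          · intro h
            exact absurd (Finset.mem_univ j) h
        rw [e1, mul_comm]
    rw [e]
    refine Submodule.add_mem _ ?_ ?_
    · refine Submodule.sum_mem _ fun i _ => Submodule.smul_mem _ _ (Submodule.subset_span ?_)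
      exact ⟨Pi.single i 1, 0, fun k => rfl⟩
    · refine Submodule.sum_mem _ fun i _ => Submodule.smul_mem _ _ (Submodule.subset_span ?_)
      exact ⟨0, Pi.single i 1, fun k => rfl⟩

end Pool.Agent.ZES.H92
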