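import Pool.Agent.ZES.StmtsC

/-!
ZES, row UMU.
-/

namespace Pool.Agent.ZES.H92

open Pool.Agent.ZES

theorem mem_UU {M : ℕ} {K R : Type} [Field K] [CommRing R] [Algebra K R] (v : Fin M → R)
    (I : Ideal R) (m : ℕ) (p : MvPolynomial (Fin M) K) :
    p ∈ UU v I m ↔ p ∈ MvPolynomial.homogeneousSubmodule (Fin M) K m ∧
      MvPolynomial.aeval v p ∈ I := Iff.rfl

theorem umu (h1 : PwmStmt) : UmuStmt := by
  intro M K R _ _ _ v I
  constructor
  · intro m k
    rw [Submodule.mul_le]
    intro p hp q hq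
    rw [mem_UU] at hp ⊢
    rw [MvPolynomial.mem_homogeneousSubmodule] at hp hq ⊢
    refine ⟨hp.1.mul hq, ?_⟩
    rw [map_mul]
    exact I.mul_mem_right _ hp.2
  · intro m hm x hx
    obtain ⟨hx1, hx2⟩ := hx
    rw [SetLike.mem_coe, ← h1 M K R v (2 * m), Submodule.mem_map] at hx1
    obtain ⟨p, hp, rfl⟩ := hx1
    have hpU : p ∈ UU v I (2 * m) := (mem_UU v I (2 * m) p).2 ⟨hp, hx2⟩
    have h2 := Submodule.mem_map_of_mem (f := (MvPolynomial.aeval v).toLinearMap) (hm hpU)
    rw [Submodule.map_mul, h1 M K R v m] at h2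
    have h3 : (UU v I m).map (MvPolynomial.aeval v).toLinearMap ≤
        (Submodule.span K (Set.range v)) ^ m ⊓ I.restrictScalars K := by
      intro y hy
      rw [Submodule.mem_map] at hy
      obtain ⟨q, hq, rfl⟩ := hy
      rw [mem_UU] at hq
      refine ⟨?_, hq.2⟩
      rw [SetLike.mem_coe, ← h1 M K R v m]
      exact Submodule.mem_map_of_mem hq.1
    have h4 : (UU v I m).map (MvPolynomial.aeval v).toLinearMap *
        (Submodule.span K (Set.range v)) ^ m ≤
        ((Submodule.span K (Set.range v)) ^ m ⊓ I.restrictScalars K) *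
          (Submodule.span K (Set.range v)) ^ m := mul_le_mul' h3 le_rfl
    exact h4 h2

end Pool.Agent.ZES.H92
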