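import Pool.Agent.ZES.StmtsF

/-!
ZES, row QPR.
-/

namespace Pool.Agent.ZES.H92

open scoped BigOperators
open Pool.Agent.ZES

theorem fc_const_mul {g : ℕ} (c : ℂ) (F : (Fin g → ℂ) → ℂ) (k : Fin g → ℤ) :
    fc (fun x => c * F x) k = c * fc F k := by
  unfold fc
  rw [← MeasureTheory.integral_const_mul]
  congr 1
  funext t
  ring

theorem qpr (h1 : FshStmt) : QprStmt := by
  intro g τ n F hF
  obtain ⟨hd, hm⟩ := hF
  have hPE : PE F := by
    refine ⟨hd, fun x p => ?_⟩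
    have h := hm x p 0
    have e1 : x + pr τ p 0 = fun i => x i + (p i : ℂ) := by
      funext i
      simp [pr]
    rw [e1] at h
    rw [h]
    simp
  refine ⟨hPE, fun k q => ?_⟩
  obtain ⟨f1, f2, -⟩ := h1 g F hPE k
  have h3 := f1 (pr τ 0 q)
  have h4 := f2 (fun i => -((n : ℤ) * q i))
  have e2 : (fun x => F (x + pr τ 0 q)) = fun x =>
      Complex.exp (-(Real.pi * Complex.I * (n : ℂ) * ∑ i, ∑ j, (q i : ℂ) * τ i j * (q j : ℂ))) *
        ((fun x : Fin g → ℂ => Complex.exp (2 * Real.pi * Complex.I *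
          ∑ i, ((-((n : ℤ) * q i) : ℤ) : ℂ) * x i) * F x) x) := by
    funext x
    rw [hm x 0 q]
    show _ = _ * (_ * F x)
    rw [← mul_assoc, ← Complex.exp_add]
    congr 2
    have e3 : ∑ i, ((-((n : ℤ) * q i) : ℤ) : ℂ) * x i = -((n : ℂ) * ∑ i, (q i : ℂ) * x i) := by
      rw [Finset.mul_sum, ← Finset.sum_neg_distrib]
      refine Finset.sum_congr rfl fun i _ => ?_
      push_cast
      ring
    rw [e3]
    ring
  rw [e2, fc_const_mul, h4] at h3
  have e4 : (fun i => k i - -((n : ℤ) * q i)) = fun i => k i + (n : ℤ) * q i := by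
    funext i
    ring
  have e5 : ∑ i, (k i : ℂ) * pr τ 0 q i = ∑ i, ∑ j, (k i : ℂ) * τ i j * (q j : ℂ) := by
    refine Finset.sum_congr rfl fun i _ => ?_
    simp only [pr, Pi.zero_apply, Int.cast_zero, zero_add]
    rw [Finset.mul_sum]
    refine Finset.sum_congr rfl fun j _ => ?_
    ring
  rw [e4, e5] at h3
  obtain ⟨A, hA⟩ : ∃ A : ℂ, A = Real.pi * Complex.I * (n : ℂ) *
    ∑ i, ∑ j, (q i : ℂ) * τ i j * (q j : ℂ) := ⟨_, rfl⟩
  rw [← hA] at h3 ⊢
  rw [Complex.exp_add, mul_assoc, ← h3, ← mul_assoc, ← Complex.exp_add, add_neg_cancel,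
    Complex.exp_zero, one_mul]

end Pool.Agent.ZES.H92
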